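import Mathlib

set_option autoImplicit false

namespace Pool.Agent.Results.MP_56f6b7_co.Disproof

open Matrix

/-- `H` is a Butson Hadamard matrix `BH(w,v)`: a `v × v` complex matrix whose entries are
`w`-th roots of unity and which satisfies `H H* = v I`. -/
def IsButson (w : ℕ) {v : ℕ} (H : Matrix (Fin v) (Fin v) ℂ) : Prop :=
  (∀ i j, H i j ^ w = 1) ∧ H * Hᴴ = (v : ℂ) • (1 : Matrix (Fin v) (Fin v) ℂ)

/-- Every entry of the first row and of the first column is `1`. -/
def IsNormalised {v : ℕ} (H : Matrix (Fin v) (Fin v) ℂ) : Prop :=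
  ∀ i j : Fin v, (i : ℕ) = 0 ∨ (j : ℕ) = 0 → H i j = 1

/-- Each row other than the first contains every `w`-th root of unity exactly `v / w` times. -/
def RowBalanced (w : ℕ) {v : ℕ} (H : Matrix (Fin v) (Fin v) ℂ) : Prop :=
  ∀ i : Fin v, (i : ℕ) ≠ 0 → ∀ h : ℂ, h ^ w = 1 → {j : Fin v | H i j = h}.ncard = v / w

/-- Each column other than the first contains every `w`-th root of unity exactly `v / w` times. -/
def ColBalanced (w : ℕ) {v : ℕ} (H : Matrix (Fin v) (Fin v) ℂ) : Prop :=
  ∀ j : Fin v, (j : ℕ) ≠ 0 → ∀ h : ℂ, h ^ w = 1 → {i : Fin v | H i j = h}.ncard = v / w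

/-! ### The data -/

/-- Exponents of a `GH(4,4)` matrix of order 16 (base 4 digits). -/
def tabA : ℕ := 7599949030207884152101840780679673726987415059565700973096599266140556711806366273012709452417618613826080996305584314372623934109481727858854072938397696

/-- Exponents of a `BH(4,16)` matrix of order 16 (base 4 digits). -/
def tabB : ℕ := 9549329931254942082199758497182885881523574127377990813691858018899645785575788061837296046000847201122640898952717929300541564899494430944231040410455516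

/-- An index set, as a bit mask. -/
def setJ : ℕ := 45022

/-- exponent tables: digit number `16 i + j` in base 4 -/
def expo (b : Bool) (i j : ℕ) : ℕ :=
  bif b then (tabB >>> (2 * (16 * i + j))) % 4 else (tabA >>> (2 * (16 * i + j))) % 4

/-- exponent of the entry in row `16 i + k` and column `16 j + l`. -/
def E (i k j l : ℕ) : ℕ := expo (Nat.testBit setJ k) i j + expo (Nat.testBit setJ j) l k

/-- The matrix of order 256. -/
noncomputable def H : Matrix (Fin 256) (Fin 256) ℂ := fun p q =>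
  Complex.I ^ E ((p : ℕ) / 16) ((p : ℕ) % 16) ((q : ℕ) / 16) ((q : ℕ) % 16)

/-! ### Finite checks -/

theorem rowcount : ∀ p : Fin 256, (p : ℕ) ≠ 0 → ∀ t : Fin 4,
    (Finset.univ.filter (fun q : Fin 256 =>
      E ((p : ℕ) / 16) ((p : ℕ) % 16) ((q : ℕ) / 16) ((q : ℕ) % 16) % 4 = t)).card = 64 := by
  decide +kernel

theorem colcount : ∀ q : Fin 256, (q : ℕ) ≠ 0 → ∀ t : Fin 4,
    (Finset.univ.filter (fun p : Fin 256 =>
      E ((p : ℕ) / 16) ((p : ℕ) % 16) ((q : ℕ) / 16) ((q : ℕ) % 16) % 4 = t)).card = 64 := by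
  decide +kernel

theorem badcount :
    (Finset.univ.filter (fun q : Fin 256 =>
      E 0 6 ((q : ℕ) / 16) ((q : ℕ) % 16) % 4 = E 0 1 ((q : ℕ) / 16) ((q : ℕ) % 16) % 4)).card
      = 40 := by
  decide +kernel

theorem norm_row : ∀ q : Fin 256, E 0 0 ((q : ℕ) / 16) ((q : ℕ) % 16) % 4 = 0 := by
  decide +kernel

theorem norm_col : ∀ p : Fin 256, E ((p : ℕ) / 16) ((p : ℕ) % 16) 0 0 % 4 = 0 := by
  decide +kernel

/-- real part of `I ^ n` -/
def re4 (n : ℕ) : ℤ := if n % 4 = 0 then 1 else if n % 4 = 2 then -1 else 0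

/-- imaginary part of `I ^ n` -/
def im4 (n : ℕ) : ℤ := if n % 4 = 1 then 1 else if n % 4 = 3 then -1 else 0

theorem orth_rows : ∀ b : Bool, ∀ i i' : Fin 16,
    (∑ j : Fin 16, re4 (expo b i j + 3 * expo b i' j)) = (if i = i' then 16 else 0) ∧
    (∑ j : Fin 16, im4 (expo b i j + 3 * expo b i' j)) = 0 := by
  decide +kernel

theorem orth_cols : ∀ b : Bool, ∀ i i' : Fin 16,
    (∑ j : Fin 16, re4 (expo b j i + 3 * expo b j i')) = (if i = i' then 16 else 0) ∧
    (∑ j : Fin 16, im4 (expo b j i + 3 * expo b j i')) = 0 := by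
  decide +kernel

/-! ### From exponents to complex numbers -/

theorem I_pow_mod (n : ℕ) : Complex.I ^ n = Complex.I ^ (n % 4) := by
  conv_lhs => rw [← Nat.div_add_mod n 4, pow_add, pow_mul, Complex.I_pow_four, one_pow, one_mul]

theorem I_pow_eq (n : ℕ) : Complex.I ^ n = (re4 n : ℂ) + (im4 n : ℂ) * Complex.I := by
  rw [I_pow_mod]
  have h : n % 4 < 4 := Nat.mod_lt _ (by norm_num)
  unfold re4 im4
  interval_cases hn : n % 4 <;> simp [pow_succ]

theorem I_pow_inj {a b : ℕ} (h : Complex.I ^ a = Complex.I ^ b) : a % 4 = b % 4 := by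
  rw [I_pow_mod a, I_pow_mod b] at h
  have ha : a % 4 < 4 := Nat.mod_lt _ (by norm_num)
  have hb : b % 4 < 4 := Nat.mod_lt _ (by norm_num)
  interval_cases a % 4 <;> interval_cases b % 4 <;>
    simp_all [pow_succ, Complex.ext_iff] <;> norm_num at h

theorem I_pow_iff (a b : ℕ) : Complex.I ^ a = Complex.I ^ b ↔ a % 4 = b % 4 := by
  constructor
  · exact I_pow_inj
  · intro h; rw [I_pow_mod a, I_pow_mod b, h]

theorem root_four {h : ℂ} (hh : h ^ 4 = 1) : ∃ t : Fin 4, h = Complex.I ^ (t : ℕ) := by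
  have h1 : (h - 1) * (h + 1) * ((h - Complex.I) * (h + Complex.I)) = 0 := by
    have : (h - 1) * (h + 1) * ((h - Complex.I) * (h + Complex.I))
        = (h ^ 2 - 1) * (h ^ 2 - Complex.I ^ 2) := by ring
    rw [this, Complex.I_sq]
    linear_combination hh
  rcases mul_eq_zero.1 h1 with h2 | h2 <;> rcases mul_eq_zero.1 h2 with h3 | h3
  · exact ⟨0, by simpa using sub_eq_zero.1 h3⟩
  · refine ⟨2, ?_⟩
    have : h = -1 := eq_neg_of_add_eq_zero_left h3
    simp [this]
  · exact ⟨1, by simpa using sub_eq_zero.1 h3⟩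
  · refine ⟨3, ?_⟩
    have : h = -Complex.I := eq_neg_of_add_eq_zero_left h3
    simp [this, pow_succ]

theorem conj_I_pow (n : ℕ) : star (Complex.I ^ n) = Complex.I ^ (3 * n) := by
  rw [pow_mul]
  simp [pow_succ]

theorem sum_rows (b : Bool) (i i' : Fin 16) :
    (∑ j : Fin 16, Complex.I ^ expo b i j * star (Complex.I ^ expo b i' j))
      = if i = i' then 16 else 0 := by
  obtain ⟨h1, h2⟩ := orth_rows b i i'
  have : ∀ j : Fin 16, Complex.I ^ expo b i j * star (Complex.I ^ expo b i' j)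
      = (re4 (expo b i j + 3 * expo b i' j) : ℂ) + (im4 (expo b i j + 3 * expo b i' j) : ℂ) *
        Complex.I := by
    intro j
    rw [conj_I_pow, ← pow_add, I_pow_eq]
  rw [Finset.sum_congr rfl (fun j _ => this j), Finset.sum_add_distrib, ← Finset.sum_mul]
  have h1' : (∑ j : Fin 16, (re4 (expo b i j + 3 * expo b i' j) : ℂ))
      = ((if i = i' then 16 else 0 : ℤ) : ℂ) := by
    rw [← h1]; push_cast; rfl
  have h2' : (∑ j : Fin 16, (im4 (expo b i j + 3 * expo b i' j) : ℂ)) = ((0 : ℤ) : ℂ) := by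
    rw [← h2]; push_cast; rfl
  rw [h1', h2']
  split_ifs <;> simp

theorem sum_cols (b : Bool) (i i' : Fin 16) :
    (∑ j : Fin 16, Complex.I ^ expo b j i * star (Complex.I ^ expo b j i'))
      = if i = i' then 16 else 0 := by
  obtain ⟨h1, h2⟩ := orth_cols b i i'
  have : ∀ j : Fin 16, Complex.I ^ expo b j i * star (Complex.I ^ expo b j i')
      = (re4 (expo b j i + 3 * expo b j i') : ℂ) + (im4 (expo b j i + 3 * expo b j i') : ℂ) *
        Complex.I := by
    intro j
    rw [conj_I_pow, ← pow_add, I_pow_eq]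
  rw [Finset.sum_congr rfl (fun j _ => this j), Finset.sum_add_distrib, ← Finset.sum_mul]
  have h1' : (∑ j : Fin 16, (re4 (expo b j i + 3 * expo b j i') : ℂ))
      = ((if i = i' then 16 else 0 : ℤ) : ℂ) := by
    rw [← h1]; push_cast; rfl
  have h2' : (∑ j : Fin 16, (im4 (expo b j i + 3 * expo b j i') : ℂ)) = ((0 : ℤ) : ℂ) := by
    rw [← h2]; push_cast; rfl
  rw [h1', h2']
  split_ifs <;> simp

/-! ### The matrix is Butson Hadamard -/

/-- sums over `Fin 256` as double sums. -/
theorem sum_split (f : ℕ → ℕ → ℂ) :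
    (∑ q : Fin 256, f ((q : ℕ) / 16) ((q : ℕ) % 16)) = ∑ j : Fin 16, ∑ l : Fin 16, f j l := by
  rw [← Fintype.sum_prod_type' (f := fun (j l : Fin 16) => f j l)]
  symm
  refine Fintype.sum_equiv (finProdFinEquiv : Fin 16 × Fin 16 ≃ Fin (16 * 16)) _ _ ?_
  rintro ⟨j, l⟩
  have hl := l.isLt
  have h1 : ((l : ℕ) + 16 * (j : ℕ)) / 16 = j := by omega
  have h2 : ((l : ℕ) + 16 * (j : ℕ)) % 16 = l := by omega
  show f j l = f (((l : ℕ) + 16 * (j : ℕ)) / 16) (((l : ℕ) + 16 * (j : ℕ)) % 16)
  rw [h1, h2]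

theorem butson_aux (i k i' k' : Fin 16) :
    (∑ j : Fin 16, ∑ l : Fin 16,
      Complex.I ^ E i k j l * star (Complex.I ^ E i' k' j l))
      = if i = i' ∧ k = k' then 256 else 0 := by
  have step : ∀ j : Fin 16, (∑ l : Fin 16,
      Complex.I ^ E i k j l * star (Complex.I ^ E i' k' j l))
      = (Complex.I ^ expo (Nat.testBit setJ k) i j *
          star (Complex.I ^ expo (Nat.testBit setJ k') i' j)) * (if k = k' then 16 else 0) := by
    intro j
    rw [← sum_cols (Nat.testBit setJ j) k k', Finset.mul_sum]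
    refine Finset.sum_congr rfl (fun l _ => ?_)
    unfold E
    rw [pow_add, pow_add, star_mul']
    ring
  rw [Finset.sum_congr rfl (fun j _ => step j), ← Finset.sum_mul]
  by_cases hk : k = k'
  · subst hk
    rw [sum_rows]
    by_cases hi : i = i'
    · simp [hi]; norm_num
    · simp [hi]
  · simp [hk]

theorem butson : IsButson 4 H := by
  refine ⟨fun i j => ?_, ?_⟩
  · unfold H
    rw [← pow_mul, mul_comm, pow_mul, Complex.I_pow_four, one_pow]
  · ext p p'
    rw [Matrix.mul_apply]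
    simp only [Matrix.conjTranspose_apply]
    have hp : (p : ℕ) / 16 < 16 := by omega
    have hp2 : (p : ℕ) % 16 < 16 := by omega
    have hq : (p' : ℕ) / 16 < 16 := by omega
    have hq2 : (p' : ℕ) % 16 < 16 := by omega
    have h1 := butson_aux ⟨_, hp⟩ ⟨_, hp2⟩ ⟨_, hq⟩ ⟨_, hq2⟩
    have h2 := sum_split (fun j l => Complex.I ^ E ((p : ℕ) / 16) ((p : ℕ) % 16) j l *
      star (Complex.I ^ E ((p' : ℕ) / 16) ((p' : ℕ) % 16) j l))
    simp only at h1
    unfold H
    rw [h2, h1]
    simp only [Fin.mk.injEq, Matrix.smul_apply, Matrix.one_apply, smul_eq_mul]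
    by_cases h : p = p'
    · subst h; simp
    · have : ¬ ((p : ℕ) / 16 = (p' : ℕ) / 16 ∧ (p : ℕ) % 16 = (p' : ℕ) % 16) := by
        rintro ⟨h3, h4⟩
        apply h
        apply Fin.ext
        omega
      simp [this, h]

theorem normalised : IsNormalised H := by
  rintro p q (h | h)
  · unfold H
    have : (p : ℕ) / 16 = 0 := by omega
    have h' : (p : ℕ) % 16 = 0 := by omega
    rw [this, h', I_pow_mod, norm_row q, pow_zero]
  · unfold H
    have : (q : ℕ) / 16 = 0 := by omega
    have h' : (q : ℕ) % 16 = 0 := by omega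
    rw [this, h', I_pow_mod, norm_col p, pow_zero]

theorem row_balanced : RowBalanced 4 H := by
  intro p hp h hh
  obtain ⟨t, rfl⟩ := root_four hh
  have := rowcount p hp t
  rw [show (256 : ℕ) / 4 = 64 from rfl, ← this, ← Set.ncard_coe_finset]
  congr 1
  ext q
  simp only [Set.mem_ofPred_eq, Finset.coe_filter, Finset.mem_univ, true_and]
  unfold H
  rw [I_pow_iff, Nat.mod_eq_of_lt t.isLt]

theorem col_balanced : ColBalanced 4 H := by
  intro q hq h hh
  obtain ⟨t, rfl⟩ := root_four hh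
  have := colcount q hq t
  rw [show (256 : ℕ) / 4 = 64 from rfl, ← this, ← Set.ncard_coe_finset]
  congr 1
  ext p
  simp only [Set.mem_ofPred_eq, Finset.coe_filter, Finset.mem_univ, true_and]
  unfold H
  rw [I_pow_iff, Nat.mod_eq_of_lt t.isLt]

theorem bad : {j : Fin 256 | H 6 j * (H 1 j)⁻¹ = 1}.ncard = 40 := by
  rw [← badcount, ← Set.ncard_coe_finset]
  congr 1
  ext q
  simp only [Set.mem_ofPred_eq, Finset.coe_filter, Finset.mem_univ, true_and]
  have hne : H 1 q ≠ 0 := by
    unfold H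
    exact pow_ne_zero _ Complex.I_ne_zero
  rw [mul_inv_eq_one₀ hne]
  show Complex.I ^ E ((6 : ℕ) / 16) ((6 : ℕ) % 16) ((q : ℕ) / 16) ((q : ℕ) % 16)
    = Complex.I ^ E ((1 : ℕ) / 16) ((1 : ℕ) % 16) ((q : ℕ) / 16) ((q : ℕ) % 16) ↔ _
  rw [I_pow_iff]

/-- Disproof of Q1, with `w = 4` and `v = 256`: there is a normalised `BH(4,256)` which is row
balanced and column balanced, and two distinct rows `i`, `k` and a fourth root of unity `h` such
that the number of columns `j` with `m_ij m_kj^{-1} = h` differs from `v / w`. In particular it is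
not a `GH(4,64)`. -/
theorem result : ∃ M : Matrix (Fin 256) (Fin 256) ℂ,
    IsButson 4 M ∧ IsNormalised M ∧ RowBalanced 4 M ∧ ColBalanced 4 M ∧
      ∃ i k : Fin 256, i ≠ k ∧ ∃ h : ℂ, h ^ 4 = 1 ∧
        {j : Fin 256 | M i j * (M k j)⁻¹ = h}.ncard ≠ 256 / 4 :=
  ⟨H, butson, normalised, row_balanced, col_balanced, 6, 1, by decide, 1, by norm_num,
    by rw [bad]; norm_num⟩

end Pool.Agent.Results.MP_56f6b7_co.Disproof
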